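import Pool.Agent.Lib.IsoPt.Member
import Pool.Agent.Lib.PolyTime.Comp

/-!
# ISOLATED-POINT-EXISTENCE is complete for the class of the sentences `∃ x ∀ y`
-/

set_option autoImplicit false

namespace Pool.Agent.Results.MP_47d501_lc.ExistsForallComplete

open Pool.Agent.PolyTime Pool.Agent.IsoPt

/-- Decision problems: instances, their codes (bit strings) and the set of yes-instances. -/
structure Problem where
  Inst : Type
  bits : Inst → List Bool
  yes : Inst → Prop

/-- Polynomial time many-one reductions (with the polynomial time Turing machines of Mathlib). -/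
def Reduces (A B : Problem) : Prop :=
  ∃ f : A.Inst → B.Inst, Nonempty (Turing.TM2ComputableInPolyTime A.bits B.bits f) ∧
    ∀ a, A.yes a ↔ B.yes (f a)

/-- ISOLATED-POINT-EXISTENCE. An instance is a number `N` and a quantifier free formula in the
language `(0, 1, +, *, =, <)` with variables `x_0, ..., x_(N-1)`; the question is whether the set it
defines in `ℝ^N` has an isolated point. The code consists of `N` in unary and of the formula in
reverse Polish notation. -/
def isolatedPoint : Problem where
  Inst := Inst
  bits I := code (enc (List.replicate I.N (), (I.φ.map Fin.val).post))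
  yes := Inst.yes

/-- The truth of the sentences `∃ x ∈ ℝ^k, ∀ y ∈ ℝ^m, ψ (x, y)`, with `ψ` quantifier free. -/
def truth : Problem where
  Inst := Sent
  bits s := code (enc (List.replicate s.k (), List.replicate s.m (),
    (s.ψ.map (Sum.map Fin.val Fin.val)).post))
  yes := Sent.yes

/-- The class `∃∀ℝ`: the problems which reduce to the truth of the sentences `∃ x ∀ y`. -/
def InClass (A : Problem) : Prop := Reduces A truth

/-- Each of the two problems reduces to the other in polynomial time. -/
theorem both : Reduces isolatedPoint truth ∧ Reduces truth isolatedPoint := by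
  refine ⟨⟨memb, PT.tm PT.memb, fun I => (memb_correct I).symm⟩, ?_⟩
  obtain ⟨B, hB⟩ := exists_bds
  exact ⟨red B, PT.tm (PT.red B), fun s => (reduce_correct hB s.ψ).symm⟩

/-- Polynomial time reductions compose. -/
theorem Reduces.trans {A B C : Problem} (h : Reduces A B) (h' : Reduces B C) : Reduces A C := by
  obtain ⟨f, hf, hf'⟩ := h
  obtain ⟨g, hg, hg'⟩ := h'
  exact ⟨fun a => g (f a), tm_comp A.bits B.bits C.bits f g hf hg,
    fun a => (hf' a).trans (hg' (f a))⟩

/-- **ISOLATED-POINT-EXISTENCE is complete for the class `∃∀ℝ`**: it belongs to the class, and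
every problem of the class reduces to it in polynomial time. (In particular the truth of the
sentences `∃ x ∀ y` reduces to it.) -/
theorem result : InClass isolatedPoint ∧ (∀ A : Problem, InClass A → Reduces A isolatedPoint) ∧
    Reduces truth isolatedPoint :=
  ⟨both.1, fun _ hA => Reduces.trans hA both.2, both.2⟩

end Pool.Agent.Results.MP_47d501_lc.ExistsForallComplete
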